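import Pool.Agent.W477.CN.Defs

/-! Project CN, part STAR: the family Star is closed under the operations. -/

namespace W477.CN.W446

open W477.CN Set

theorem star_iff {X : Type} {𝒜 : Set (Set X)} (h : IsAlg 𝒜) (A : Set (X × ℕ)) :
    A ∈ Star 𝒜 ↔ (∃ n, ∀ p ∈ A, p.2 < n) ∧ ∀ m, {x | (x, m) ∈ A} ∈ 𝒜 := by
  constructor
  · rintro ⟨n, f, hf, rfl⟩
    refine ⟨⟨n, fun p hp => hp.1⟩, fun m => ?_⟩
    by_cases hm : m < n
    · have h1 : {x | (x, m) ∈ {p : X × ℕ | p.2 < n ∧ p.1 ∈ f p.2}} = f m := by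
        ext x; simp [hm]
      rw [h1]; exact hf m hm
    · have h1 : {x | (x, m) ∈ {p : X × ℕ | p.2 < n ∧ p.1 ∈ f p.2}} = ∅ := by
        ext x; simp [hm]
      rw [h1]; exact h.empty
  · rintro ⟨⟨n, hn⟩, hs⟩
    refine ⟨n, fun m => {x | (x, m) ∈ A}, fun m _ => hs m, ?_⟩
    ext ⟨x, m⟩
    simp only [mem_setOf_eq]
    exact ⟨fun hx => ⟨hn _ hx, hx⟩, fun hx => hx.2⟩

theorem star_holds : P_star := by
  intro X G _ _ 𝒜 h hinv
  refine ⟨?_, ?_, ?_, ?_⟩
  · rw [star_iff h]
    refine ⟨⟨0, fun p hp => absurd hp (Set.notMem_empty p)⟩, fun m => ?_⟩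
    have h1 : {x : X | (x, m) ∈ (∅ : Set (X × ℕ))} = ∅ := by ext x; simp
    rw [h1]; exact h.empty
  · intro A hA B hB
    obtain ⟨⟨n, hn⟩, hs⟩ := (star_iff h A).1 hA
    obtain ⟨⟨n', hn'⟩, hs'⟩ := (star_iff h B).1 hB
    refine ⟨(star_iff h _).2 ⟨⟨max n n', ?_⟩, fun m => ?_⟩,
      (star_iff h _).2 ⟨⟨n, fun p hp => hn p hp.1⟩, fun m => ?_⟩,
      (star_iff h _).2 ⟨⟨n, fun p hp => hn p hp.1⟩, fun m => ?_⟩⟩
    · rintro p (hp | hp)
      · exact lt_of_lt_of_le (hn p hp) (le_max_left _ _)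
      · exact lt_of_lt_of_le (hn' p hp) (le_max_right _ _)
    · exact h.union _ (hs m) _ (hs' m)
    · exact h.inter _ (hs m) _ (hs' m)
    · exact h.inter _ (hs m) _ (h.compl _ (hs' m))
  · intro A hA N
    obtain ⟨⟨n, hn⟩, hs⟩ := (star_iff h A).1 hA
    refine (star_iff h _).2 ⟨⟨n + N, ?_⟩, fun m => ?_⟩
    · rintro p ⟨q, hq, rfl⟩
      have := hn q hq
      show q.2 + N < n + N
      omega
    · by_cases hm : N ≤ m
      · have h1 : {x | (x, m) ∈ shift N A} = {x | (x, m - N) ∈ A} := by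
          ext x
          simp only [mem_setOf_eq, shift]
          constructor
          · rintro ⟨q, hq, he⟩
            have e1 : x = q.1 := congrArg Prod.fst he
            have e2 : m = q.2 + N := congrArg Prod.snd he
            have e3 : (x, m - N) = q := by
              rw [e1, e2, Nat.add_sub_cancel]
            rw [e3]; exact hq
          · intro hx
            exact ⟨(x, m - N), hx, by simp [Nat.sub_add_cancel hm]⟩
        rw [h1]; exact hs _
      · have h1 : {x | (x, m) ∈ shift N A} = ∅ := by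
          ext x
          simp only [mem_setOf_eq, shift, mem_empty_iff_false, iff_false]
          rintro ⟨q, hq, he⟩
          have e2 : m = q.2 + N := congrArg Prod.snd he
          omega
        rw [h1]; exact h.empty
  · intro A hA g
    obtain ⟨⟨n, hn⟩, hs⟩ := (star_iff h A).1 hA
    refine (star_iff h _).2 ⟨⟨(Finset.range n).sup (fun k => g.2 k + 1), ?_⟩, fun m => ?_⟩
    · rintro p ⟨q, hq, rfl⟩
      have h1 : g.2 q.2 + 1 ≤ (Finset.range n).sup (fun k => g.2 k + 1) :=
        Finset.le_sup (f := fun k => g.2 k + 1) (Finset.mem_range.2 (hn q hq))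
      exact h1
    · have h1 : {x | (x, m) ∈ act g '' A} =
          (fun x => g.1 • x) '' {x | (x, g.2.symm m) ∈ A} := by
        ext x
        simp only [mem_setOf_eq, mem_image]
        constructor
        · rintro ⟨q, hq, he⟩
          have e1 : g.1 • q.1 = x := congrArg Prod.fst he
          have e2 : g.2 q.2 = m := congrArg Prod.snd he
          refine ⟨q.1, ?_, e1⟩
          rw [← e2, Equiv.symm_apply_apply]
          exact hq
        · rintro ⟨y, hy, rfl⟩
          refine ⟨(y, g.2.symm m), hy, ?_⟩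
          simp [act]
      rw [h1]
      exact hinv g.1 _ (hs _)

end W477.CN.W446
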